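import Mathlib
import Pool.Agent.R521.IS.Stm
import Pool.Agent.R521.IS.Final
import Pool.Agent.R521.IS.Merge
import Pool.Agent.R521.IS.Pos
import Pool.Agent.R521.IS.Inv
import Pool.Agent.R521.IS.Pair
import Pool.Agent.R521.IS.Ind
import Pool.Agent.R521.IS.Core
import Pool.Agent.R521.IS.Det
import Pool.Agent.R521.IS.Mt
import Pool.Agent.R521.IS.Tup
import Pool.Agent.R521.IS.Tlow
import Pool.Agent.R521.IS.Res
import Pool.Agent.R521.IS.Ratio
import Pool.Agent.R521.IS.Nest
import Pool.Agent.R521.IS.Chain
import Pool.Agent.R521.IS.Count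
import Pool.Agent.R521.IS.Sep
import Pool.Agent.R521.IS.Flip
import Pool.Agent.R521.IS.Pei
import Pool.Agent.R521.IS.Gex
import Pool.Agent.R521.IS.Gre

/-!
# Long range order for the Ising model on graphs with bounded renormalized Green's function

The case `N = 1` of the question: for all `ε, M > 0` there is `βc` such that on every finite connected graph
with `M_G ≤ M`, of arbitrary degrees, `E σ_x σ_y ≥ 1 - ε` for all vertices `x, y` and all `β > βc`.
-/

set_option autoImplicit false

open Finset

namespace Pool.Agent.Results.MP_364654_pr.IsingLongRangeOrder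

noncomputable section
open Classical

/-- The degree of `i`, as a real number. -/
def degree {V : Type} [Fintype V] (G : SimpleGraph V) (i : V) : ℝ :=
  ∑ v, if G.Adj i v then (1 : ℝ) else 0

/-- The first step equations of `u(s) =` the expected number of visits to `i` of simple random walk started
at `s` before it hits `j`: `u j = 0`, and `u s = [s = i] + (1 / d(s)) ∑_{v ~ s} u v` for `s ≠ j`. -/
def VisitEquations {V : Type} [Fintype V] (G : SimpleGraph V) (i j : V) (u : V → ℝ) : Prop :=
  u j = 0 ∧ ∀ s, s ≠ j → u s = (if s = i then 1 else 0) + (∑ v, if G.Adj s v then u v else 0) / degree G s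

/-- `M_G ≤ M`: the expected number of visits to `i` before hitting `j`, started at `i`, divided by the degree
of `i`, is at most `M` for all `i ≠ j`. -/
def GreenBounded {V : Type} [Fintype V] (G : SimpleGraph V) (M : ℝ) : Prop :=
  ∀ i j : V, i ≠ j → ∀ u : V → ℝ, VisitEquations G i j u → u i / degree G i ≤ M

/-- The spin `±1`. -/
def spin (b : Bool) : ℝ := if b then 1 else -1

/-- The Boltzmann weight `exp (β ∑_{edges {u,v}} σ_u σ_v)`; the double sum counts every edge twice. -/
def weight {V : Type} [Fintype V] (G : SimpleGraph V) (β : ℝ) (σ : V → Bool) : ℝ :=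
  Real.exp (β * ((1 / 2) * ∑ u, ∑ v, if G.Adj u v then spin (σ u) * spin (σ v) else 0))

/-- `E_{G,1,β} σ_x σ_y`, the two point function of the Ising model. -/
def twoPoint {V : Type} [Fintype V] (G : SimpleGraph V) (β : ℝ) (x y : V) : ℝ :=
  (∑ σ : V → Bool, spin (σ x) * spin (σ y) * weight G β σ) / (∑ σ : V → Bool, weight G β σ)

/-- (a) The first step equations have exactly one solution.
(b) Long range order of the Ising model at all `β > βc(ε, M)`, uniformly over all finite connected graphs with
`M_G ≤ M`. -/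
theorem result :
    (∀ (V : Type) [Fintype V] (G : SimpleGraph V), G.Connected → ∀ i j : V, i ≠ j →
      ∃! u : V → ℝ, VisitEquations G i j u) ∧
    (∀ ε : ℝ, 0 < ε → ∀ M : ℝ, 0 < M → ∃ βc : ℝ, ∀ (V : Type) [Fintype V] (G : SimpleGraph V),
      G.Connected → GreenBounded G M → ∀ x y : V, ∀ β : ℝ, βc < β → 1 - ε ≤ twoPoint G β x y) := by
  have hpos := Pool.Agent.R521.IS.Pos.pos
  have hinv := Pool.Agent.R521.IS.Inv.inv hpos
  have hpair := Pool.Agent.R521.IS.Pair.pair hpos hinv
  have hind := Pool.Agent.R521.IS.Ind.ind Pool.Agent.R521.IS.Merge.merge hpos hpair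
  have hcore := Pool.Agent.R521.IS.Core.core hind hpos
  have hdet := Pool.Agent.R521.IS.Det.det hcore hpos
  have hmt := Pool.Agent.R521.IS.Mt.mt
  have hratio := Pool.Agent.R521.IS.Ratio.ratio hdet (Pool.Agent.R521.IS.Tup.tup hmt) (Pool.Agent.R521.IS.Tlow.tlow hmt) Pool.Agent.R521.IS.Res.res
  have hcount := Pool.Agent.R521.IS.Count.count hratio Pool.Agent.R521.IS.Nest.nest Pool.Agent.R521.IS.Chain.chain
  have hpei := Pool.Agent.R521.IS.Pei.pei Pool.Agent.R521.IS.Sep.sep Pool.Agent.R521.IS.Flip.flip
  have hgre := Pool.Agent.R521.IS.Gre.gre Pool.Agent.R521.IS.Gex.gex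
  refine ⟨?_, ?_⟩
  · intro V _ G hG i j hij
    exact Pool.Agent.R521.IS.Gex.gex V G hG i j hij
  · exact Pool.Agent.R521.IS.Final.final hgre hcount hpei

end

end Pool.Agent.Results.MP_364654_pr.IsingLongRangeOrder
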